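import Mathlib
import Pool.Agent.NH79.TB.Parts

/-!
# Extending total colourings of distance-3 matchings: all bipartite graphs

Q1 holds for every bipartite graph and, more generally, for every graph that becomes bipartite when the
edges of a suitable matching `M` containing `H` are deleted.

Proof. Let `I` be a maximum independent set of the graph induced by the vertices not covered by `M`,
and let `C` be the set of the other such vertices; by the theorem of König there is a matching of `C`
into `I` (`Indep`). A vertex of `I` next to an edge of `M` gets the colour of this edge, all other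
vertices are coloured greedily. The remaining edges are coloured by Galvin's argument: every vertex of
`I` selects one of its edges, the edge of the matching if there is one; the selected edges are first in
the preferences of their ends in `I` and last in the preferences of their other ends; without them and
without `M` all degrees are at most `Δ - 1` (`Orders`).
-/

set_option autoImplicit false

namespace Pool.Agent.Results.MP_db9399_co.AllBipartite

open Pool.Agent.NH79.TB

/-- Let all degrees of `G` be at most `Δ`. Let `M` be a matching of `G` such that every edge of `G`
outside `M` has exactly one end in `X`, and let `H ≤ M` be such that the ends of an edge of `H` and of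
a different edge of `M` are always at distance at least 3 in `G`. Let `U` be a set of vertices at
distance at least 3 from all vertices covered by `M`. Then every total colouring `(f0, g0)` of `H` with
`Δ + 2` colours, together with every proper colouring `f0` of the vertices of `U`, extends to a total
colouring `(f, g)` of `G` with `Δ + 2` colours. For `M = H` and `U = ∅` this is Q1 for bipartite graphs
`G` and for graphs `G` that become bipartite when the edges of `H` are deleted. -/
theorem result {V : Type} [Fintype V] (G H M : SimpleGraph V) (Δ : ℕ) (X : Set V)
    (hΔ : ∀ v, (G.neighborSet v).ncard ≤ Δ) (hHM : H ≤ M) (hMG : M ≤ G)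
    (hmatch : ∀ u v w, M.Adj u v → M.Adj u w → v = w)
    (hdist : ∀ u v x y, H.Adj u v → M.Adj x y → s(u, v) ≠ s(x, y) → 3 ≤ G.edist u x)
    (hX : ∀ u v, G.Adj u v → ¬ M.Adj u v → (u ∈ X ↔ v ∉ X))
    (f0 : V → Fin (Δ + 2)) (g0 : Sym2 V → Fin (Δ + 2)) (h0 : IsTot H f0 g0)
    (U : Set V) (hU1 : ∀ u ∈ U, ∀ x y, M.Adj x y → 3 ≤ G.edist u x)
    (hU2 : ∀ u ∈ U, ∀ v ∈ U, G.Adj u v → f0 u ≠ f0 v) :
    ∃ (f : V → Fin (Δ + 2)) (g : Sym2 V → Fin (Δ + 2)), IsTot G f g ∧
      (∀ u v, H.Adj u v → f u = f0 u ∧ g s(u, v) = g0 s(u, v)) ∧ ∀ u ∈ U, f u = f0 u :=
  part_one G H M Δ X hΔ hHM hMG hmatch hdist hX f0 g0 h0 U hU1 hU2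

end Pool.Agent.Results.MP_db9399_co.AllBipartite
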