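import Mathlib
import Pool.Agent.NH79.TB.Parts

/-!
# Extending total colourings of distance-3 matchings in bipartite graphs: lists
-/

set_option autoImplicit false

namespace Pool.Agent.Results.MP_db9399_co.BipartiteLists

open Pool.Agent.NH79.TB

/-- Let `G` be a bipartite graph (every edge has exactly one end in `X`), let `H` be a distance-3
matching of `G` with a total colouring `(f0, g0)`, and let `U` be a set of vertices at distance at
least 3 from all vertices covered by `H` with a proper colouring `f0`. Let lists of colours be given: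
at least `deg v + 1` colours for every vertex `v`, at least `max (deg v) (deg x) + 2` colours for a
vertex `v` adjacent to a vertex `x` covered by `H` (but not by the edge `v x`), and at least
`max (deg u) (deg v) + 2` colours for the edges `uv` outside `H`. Then `(f0, g0)` extends to a total
colouring `(f, g)` of `G` in which the other vertices and edges have colours from their lists. The
colours of `H` and `U` are arbitrary. -/
theorem result {V : Type} [Fintype V] (G H : SimpleGraph V) (X : Set V)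
    (hX : ∀ u v, G.Adj u v → (u ∈ X ↔ v ∉ X)) (hHG : H ≤ G)
    (hmatch : ∀ u v w, H.Adj u v → H.Adj u w → v = w)
    (hdist : ∀ u v x y, H.Adj u v → H.Adj x y → s(u, v) ≠ s(x, y) → 3 ≤ G.edist u x)
    (f0 : V → ℕ) (g0 : Sym2 V → ℕ) (h0 : IsTot H f0 g0)
    (U : Set V) (hU1 : ∀ u ∈ U, ∀ x y, H.Adj x y → 3 ≤ G.edist u x)
    (hU2 : ∀ u ∈ U, ∀ v ∈ U, G.Adj u v → f0 u ≠ f0 v)
    (Lv : V → Finset ℕ) (Le : Sym2 V → Finset ℕ)
    (hLv : ∀ v, (G.neighborSet v).ncard + 1 ≤ (Lv v).card)
    (hLv2 : ∀ v x y, G.Adj v x → ¬ H.Adj v x → H.Adj x y →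
      max (G.neighborSet v).ncard (G.neighborSet x).ncard + 2 ≤ (Lv v).card)
    (hLe : ∀ u v, G.Adj u v → ¬ H.Adj u v →
      max (G.neighborSet u).ncard (G.neighborSet v).ncard + 2 ≤ (Le s(u, v)).card) :
    ∃ (f : V → ℕ) (g : Sym2 V → ℕ), IsTot G f g ∧
      (∀ u v, H.Adj u v → f u = f0 u ∧ g s(u, v) = g0 s(u, v)) ∧ (∀ u ∈ U, f u = f0 u) ∧
      (∀ v, v ∉ U → (∀ w, ¬ H.Adj v w) → f v ∈ Lv v) ∧
      ∀ u v, G.Adj u v → ¬ H.Adj u v → g s(u, v) ∈ Le s(u, v) :=
  part_two G H X hX hHG hmatch hdist f0 g0 h0 U hU1 hU2 Lv Le hLv hLv2 hLe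

end Pool.Agent.Results.MP_db9399_co.BipartiteLists
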